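import Mathlib
import Pool.Agent.L0h94.RZ.Defs

set_option autoImplicit false

/-! Reciprocity algebra for the additive symbols `nr`. -/

namespace Pool.Agent.L0h53.RZ

open Finset Pool.Agent.L0h94.RZ

theorem jac_cases {p : ℕ} (hp : p.Prime) {a : ℤ} (h : ¬ (p : ℤ) ∣ a) :
    jacobiSym a p = 1 ∨ jacobiSym a p = -1 := by
  apply jacobiSym.eq_one_or_neg_one
  rw [Int.gcd_comm, ← Int.isCoprime_iff_gcd_eq_one]
  exact (Nat.prime_iff_prime_int.mp hp).coprime_iff_not_dvd.mpr h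

theorem nr_mul {p : ℕ} (hp : p.Prime) {a b : ℤ} (ha : ¬ (p : ℤ) ∣ a) (hb : ¬ (p : ℤ) ∣ b) :
    nr p (a * b) = nr p a + nr p b := by
  unfold nr
  rw [jacobiSym.mul_left]
  rcases jac_cases hp ha with h1 | h1 <;> rcases jac_cases hp hb with h2 | h2 <;>
    rw [h1, h2] <;> decide

theorem nr_one (p : ℕ) : nr p 1 = 0 := by
  unfold nr
  rw [jacobiSym.one_left]
  decide

theorem nr_congr {p : ℕ} {a b : ℤ} (h : (p : ℤ) ∣ a - b) : nr p a = nr p b := by
  unfold nr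
  rw [jacobiSym.mod_left a p, jacobiSym.mod_left b p]
  have : a % (p : ℤ) = b % (p : ℤ) := Int.ModEq.symm (Int.modEq_iff_dvd.mpr h)
  rw [this]

theorem nr_prod {p : ℕ} (hp : p.Prime) {ι : Type*} (s : Finset ι) (f : ι → ℤ)
    (h : ∀ i ∈ s, ¬ (p : ℤ) ∣ f i) : nr p (∏ i ∈ s, f i) = ∑ i ∈ s, nr p (f i) := by
  classical
  induction s using Finset.induction_on with
  | empty => simp [nr_one]
  | insert i s hi ih =>
    rw [Finset.prod_insert hi, Finset.sum_insert hi]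
    rw [nr_mul hp (h i (mem_insert_self _ _)), ih fun j hj => h j (mem_insert_of_mem hj)]
    rw [Prime.dvd_finsetProd_iff (Nat.prime_iff_prime_int.mp hp)]
    rintro ⟨j, hj, hd⟩
    exact h j (mem_insert_of_mem hj) hd

theorem nr_sq {p : ℕ} (hp : p.Prime) {a : ℤ} (ha : ¬ (p : ℤ) ∣ a) : nr p (a * a) = 0 := by
  rw [nr_mul hp ha ha]
  exact CharTwo.add_self_eq_zero _

theorem nr_neg {p : ℕ} (hp : p.Prime) {a : ℤ} (ha : ¬ (p : ℤ) ∣ a) :
    nr p (-a) = lam p + nr p a := by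
  have h1 : ¬ (p : ℤ) ∣ -1 := by
    rw [dvd_neg]
    intro h
    have := Int.eq_one_of_dvd_one (by positivity) h
    have h2 := hp.one_lt
    omega
  rw [show -a = (-1) * a by ring, nr_mul hp h1 ha]
  rfl

/-- `1` for the numbers which are `3` modulo `4` -/
def l4 (n : ℕ) : ZMod 2 := if n % 4 = 3 then 1 else 0

theorem l4_mul {a b : ℕ} (ha : a % 2 = 1) (hb : b % 2 = 1) : l4 (a * b) = l4 a + l4 b := by
  unfold l4
  have h1 : a % 4 = 1 ∨ a % 4 = 3 := by omega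
  have h2 : b % 4 = 1 ∨ b % 4 = 3 := by omega
  rw [Nat.mul_mod]
  rcases h1 with h1 | h1 <;> rcases h2 with h2 | h2 <;> rw [h1, h2] <;> decide

theorem lam_eq {p : ℕ} (hp : p % 2 = 1) : lam p = l4 p := by
  unfold lam nr l4
  rw [jacobiSym.at_neg_one (Nat.odd_iff.mpr hp)]
  have h1 : p % 4 = 1 ∨ p % 4 = 3 := by omega
  rcases h1 with h1 | h1
  · rw [ZMod.χ₄_nat_one_mod_four h1, h1]; decide
  · rw [ZMod.χ₄_nat_three_mod_four h1, h1]; decide

theorem l4_prod {ι : Type*} (s : Finset ι) (f : ι → ℕ) (h : ∀ i ∈ s, f i % 2 = 1) :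
    l4 (∏ i ∈ s, f i) = ∑ i ∈ s, l4 (f i) ∧ (∏ i ∈ s, f i) % 2 = 1 := by
  classical
  induction s using Finset.induction_on with
  | empty => exact ⟨by simp [l4], by simp⟩
  | insert i s hi ih =>
    obtain ⟨h1, h2⟩ := ih fun j hj => h j (mem_insert_of_mem hj)
    have h3 := h i (mem_insert_self _ _)
    rw [Finset.prod_insert hi, Finset.sum_insert hi]
    refine ⟨by rw [l4_mul h3 h2, h1], ?_⟩
    rw [Nat.mul_mod, h3, h2]

/-- quadratic reciprocity -/
theorem recip {p q : ℕ} (hp : p.Prime) (hq : q.Prime) (hp2 : p % 2 = 1) (hq2 : q % 2 = 1)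
    (hpq : p ≠ q) : nr p q + nr q p = lam p * lam q := by
  have h1 := jacobiSym.quadratic_reciprocity' (a := q) (b := p) (Nat.odd_iff.mpr hq2)
    (Nat.odd_iff.mpr hp2)
  have hnd1 : ¬ (p : ℤ) ∣ (q : ℤ) := by
    intro h
    have h2 : p ∣ q := by exact_mod_cast h
    exact hpq ((Nat.prime_dvd_prime_iff_eq hp hq).mp h2)
  have hnd2 : ¬ (q : ℤ) ∣ (p : ℤ) := by
    intro h
    have h2 : q ∣ p := by exact_mod_cast h
    exact hpq ((Nat.prime_dvd_prime_iff_eq hq hp).mp h2).symm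
  rw [lam_eq hp2, lam_eq hq2]
  have hp4 : p % 4 = 1 ∨ p % 4 = 3 := by omega
  have hq4 : q % 4 = 1 ∨ q % 4 = 3 := by omega
  have key : jacobiSym q p = (if q % 4 = 3 ∧ p % 4 = 3 then -1 else 1) * jacobiSym p q := by
    by_cases hc : q % 4 = 3 ∧ p % 4 = 3
    · rw [if_pos hc, jacobiSym.quadratic_reciprocity_three_mod_four hc.1 hc.2]; ring
    · rw [if_neg hc, one_mul]
      rcases hq4 with h4 | h4
      · exact jacobiSym.quadratic_reciprocity_one_mod_four h4 (Nat.odd_iff.mpr hp2)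
      · rcases hp4 with h5 | h5
        · exact (jacobiSym.quadratic_reciprocity_one_mod_four h5 (Nat.odd_iff.mpr hq2)).symm
        · exact absurd ⟨h4, h5⟩ hc
  unfold nr l4
  rw [key]
  rcases jac_cases hq hnd2 with h6 | h6 <;> rw [h6] <;>
    rcases hp4 with h4 | h4 <;> rcases hq4 with h5 | h5 <;> rw [h4, h5] <;> decide

end Pool.Agent.L0h53.RZ
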