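import Mathlib
import Pool.Agent.L0h94.RZ.Defs
import Pool.Agent.L0h53.RZ.Rec

set_option autoImplicit false

/-! Part (6) of project RZ: the sum of a row over each class is the diagonal entry. -/

namespace Pool.Agent.L0h53.RZ

open Finset Pool.Agent.L0h94.RZ

/-- the three numbers -/
def cn (u b w : ℕ) : Fin 3 → ℕ := ![u, b, w]

theorem gd_four {u b w : ℕ} (h : Gd u b w) : u % 4 = 3 ∧ b % 4 = 3 ∧ w % 4 = 3 := by
  have h1 := h.hb
  have h2 := h.hu
  have h3 := h.hw
  omega

theorem gd_sq {u b w : ℕ} (h : Gd u b w) : Squarefree u ∧ Squarefree b ∧ Squarefree w ∧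
    Nat.Coprime u b ∧ Nat.Coprime u w ∧ Nat.Coprime b w ∧ u * b * w ≠ 0 := by
  have h1 := h.sq
  have h2 := Nat.squarefree_mul_iff.mp h1
  have h3 := Nat.squarefree_mul_iff.mp h2.2.1
  have h4 := Nat.coprime_mul_iff_left.mp h2.1
  exact ⟨h3.2.1, h3.2.2, h2.2.2, h3.1, h4.1, h4.2, h1.ne_zero⟩

/-- the class of a prime of `P` -/
theorem cls {u b w : ℕ} (h : Gd u b w) {p : ℕ} (hp : p ∈ (u * b * w).primeFactors) :
    p.Prime ∧ p % 2 = 1 ∧ ((clf u b p = 0 ∧ p ∣ u ∧ ¬ p ∣ b ∧ ¬ p ∣ w) ∨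
      (clf u b p = 1 ∧ ¬ p ∣ u ∧ p ∣ b ∧ ¬ p ∣ w) ∨
      (clf u b p = 2 ∧ ¬ p ∣ u ∧ ¬ p ∣ b ∧ p ∣ w)) := by
  obtain ⟨s1, s2, s3, c1, c2, c3, h0⟩ := gd_sq h
  obtain ⟨m1, m2, m3⟩ := gd_four h
  have hpp := Nat.prime_of_mem_primeFactors hp
  have hd := Nat.dvd_of_mem_primeFactors hp
  have hno : ∀ {a c : ℕ}, Nat.Coprime a c → p ∣ a → ¬ p ∣ c := by
    intro a c hc ha hcc
    exact Nat.not_coprime_of_dvd_of_dvd hpp.one_lt ha hcc hc
  refine ⟨hpp, ?_, ?_⟩
  · rcases hpp.eq_two_or_odd with h2 | h2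
    · exfalso
      subst h2
      rcases (Nat.prime_two.dvd_mul).mp hd with h3 | h3
      · rcases (Nat.prime_two.dvd_mul).mp h3 with h4 | h4 <;> omega
      · omega
    · exact h2
  · rcases (hpp.dvd_mul).mp hd with h3 | h3
    · rcases (hpp.dvd_mul).mp h3 with h4 | h4
      · exact Or.inl ⟨by simp [clf, h4], h4, hno c1 h4, hno c2 h4⟩
      · have h5 : ¬ p ∣ u := hno c1.symm h4
        exact Or.inr (Or.inl ⟨by simp [clf, h4, h5], h5, h4, hno c3 h4⟩)
    · have h5 : ¬ p ∣ u := hno c2.symm h3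
      have h6 : ¬ p ∣ b := hno c3.symm h3
      exact Or.inr (Or.inr ⟨by simp [clf, h5, h6], h5, h6, h3⟩)

/-- the classes are the sets of the prime factors -/
theorem filter_clf {u b w : ℕ} (h : Gd u b w) (χ : Fin 3) :
    (u * b * w).primeFactors.filter (fun q => clf u b q = χ) = (cn u b w χ).primeFactors := by
  obtain ⟨s1, s2, s3, c1, c2, c3, h0⟩ := gd_sq h
  ext q
  rw [Finset.mem_filter]
  constructor
  · rintro ⟨h1, h2⟩
    obtain ⟨hq, -, h3⟩ := cls h h1
    rw [Nat.mem_primeFactors]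
    rcases h3 with ⟨h4, h5, -⟩ | ⟨h4, -, h5, -⟩ | ⟨h4, -, -, h5⟩ <;>
      rw [h4] at h2 <;> subst h2
    · exact ⟨hq, h5, s1.ne_zero⟩
    · exact ⟨hq, h5, s2.ne_zero⟩
    · exact ⟨hq, h5, s3.ne_zero⟩
  · intro h1
    have hq := Nat.prime_of_mem_primeFactors h1
    have hd := Nat.dvd_of_mem_primeFactors h1
    have hP : q ∈ (u * b * w).primeFactors := by
      rw [Nat.mem_primeFactors]
      refine ⟨hq, ?_, h0⟩
      fin_cases χ
      · exact Dvd.dvd.mul_right (Dvd.dvd.mul_right hd _) _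
      · exact Dvd.dvd.mul_right (Dvd.dvd.mul_left hd _) _
      · exact Dvd.dvd.mul_left hd _
    refine ⟨hP, ?_⟩
    obtain ⟨-, -, h3⟩ := cls h hP
    fin_cases χ
    · rcases h3 with ⟨h4, h5, h6, h7⟩ | ⟨h4, h5, h6, h7⟩ | ⟨h4, h5, h6, h7⟩
      · exact h4
      · exact absurd hd h5
      · exact absurd hd h5
    · rcases h3 with ⟨h4, h5, h6, h7⟩ | ⟨h4, h5, h6, h7⟩ | ⟨h4, h5, h6, h7⟩
      · exact absurd hd h6
      · exact h4
      · exact absurd hd h6
    · rcases h3 with ⟨h4, h5, h6, h7⟩ | ⟨h4, h5, h6, h7⟩ | ⟨h4, h5, h6, h7⟩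
      · exact absurd hd h7
      · exact absurd hd h7
      · exact h4

theorem cn_sq {u b w : ℕ} (h : Gd u b w) (χ : Fin 3) : Squarefree (cn u b w χ) ∧
    cn u b w χ % 4 = 3 := by
  obtain ⟨s1, s2, s3, -⟩ := gd_sq h
  obtain ⟨m1, m2, m3⟩ := gd_four h
  fin_cases χ
  · exact ⟨s1, m1⟩
  · exact ⟨s2, m2⟩
  · exact ⟨s3, m3⟩

/-- the primes of an odd number are odd -/
theorem odd_of_mem {N q : ℕ} (hN : N % 2 = 1) (hq : q ∈ N.primeFactors) : q % 2 = 1 := by
  have h1 := Nat.prime_of_mem_primeFactors hq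
  have h2 := Nat.dvd_of_mem_primeFactors hq
  rcases h1.eq_two_or_odd with h3 | h3
  · subst h3
    omega
  · exact h3

theorem sum_lam {N : ℕ} (hN : Squarefree N) (h4 : N % 2 = 1) :
    ∑ q ∈ N.primeFactors, lam q = l4 N := by
  have h1 : ∀ q ∈ N.primeFactors, q % 2 = 1 := fun q hq => odd_of_mem h4 hq
  rw [Finset.sum_congr rfl fun q hq => lam_eq (h1 q hq)]
  rw [← (l4_prod N.primeFactors (fun q => q) h1).1, Nat.prod_primeFactors_of_squarefree hN]

theorem sum_nr {N p : ℕ} (hN : Squarefree N) (hp : p.Prime) (hd : ¬ p ∣ N) :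
    ∑ q ∈ N.primeFactors, nr p q = nr p N := by
  have h1 : ∀ q ∈ N.primeFactors, ¬ (p : ℤ) ∣ (q : ℤ) := by
    intro q hq h2
    have h3 : p ∣ q := by exact_mod_cast h2
    exact hd (h3.trans (Nat.dvd_of_mem_primeFactors hq))
  rw [← nr_prod hp N.primeFactors (fun q => (q : ℤ)) h1, ← Nat.cast_prod,
    Nat.prod_primeFactors_of_squarefree hN]

theorem sum_rn {N p : ℕ} (hN : Squarefree N) (h4 : N % 4 = 3) (hp : p.Prime) (hp2 : p % 2 = 1)
    (hd : ¬ p ∣ N) : ∑ q ∈ N.primeFactors, nr q p = nr p N + lam p := by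
  have h1 : ∀ q ∈ N.primeFactors, nr q p = nr p q + lam p * lam q := by
    intro q hq
    have h2 := recip hp (Nat.prime_of_mem_primeFactors hq) hp2
      (odd_of_mem (by omega) hq) (by
        rintro rfl
        exact hd (Nat.dvd_of_mem_primeFactors hq))
    rw [← h2, ← add_assoc, CharTwo.add_self_eq_zero, zero_add]
  rw [Finset.sum_congr rfl h1, Finset.sum_add_distrib, sum_nr hN hp hd, ← Finset.mul_sum,
    sum_lam hN (by omega)]
  unfold l4
  rw [if_pos h4, mul_one]

theorem cn_dvd {u b w : ℕ} (h : Gd u b w) {p : ℕ} (hp : p ∈ (u * b * w).primeFactors)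
    (χ : Fin 3) : p ∣ cn u b w χ ↔ clf u b p = χ := by
  obtain ⟨hpp, -, h3⟩ := cls h hp
  fin_cases χ <;>
  rcases h3 with ⟨h4, h5, h6, h7⟩ | ⟨h4, h5, h6, h7⟩ | ⟨h4, h5, h6, h7⟩ <;>
  simp [cn, h4, h5, h6, h7]

/-- the sum over another class -/
theorem row_off {o : Bool} {u b w : ℕ} (h : Gd u b w) {p : ℕ}
    (hp : p ∈ (u * b * w).primeFactors) {χ : Fin 3} (hχ : clf u b p ≠ χ) :
    ∑ q ∈ (u * b * w).primeFactors.filter (fun q => clf u b q = χ),
      en o (clf u b) (tf u b w) p q =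
    if xor (decide (clf u b p < χ)) o then nr p (cn u b w χ) else nr p (cn u b w χ) + lam p := by
  obtain ⟨hpp, hp2, -⟩ := cls h hp
  obtain ⟨hs, h4⟩ := cn_sq h χ
  have hd : ¬ p ∣ cn u b w χ := by
    rw [cn_dvd h hp]; exact hχ
  have h1 : ∀ q ∈ (u * b * w).primeFactors.filter (fun q => clf u b q = χ),
      en o (clf u b) (tf u b w) p q =
        if xor (decide (clf u b p < χ)) o then nr p q else nr q p := by
    intro q hq
    rw [Finset.mem_filter] at hq
    have h2 : p ≠ q := by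
      rintro rfl
      exact hχ hq.2
    unfold en
    rw [if_neg h2, hq.2, if_neg hχ]
  rw [Finset.sum_congr rfl h1, filter_clf h]
  by_cases hx : xor (decide (clf u b p < χ)) o = true
  · simp only [hx, if_true]
    exact sum_nr hs hpp hd
  · simp only [hx]
    exact sum_rn hs h4 hpp hp2 hd

theorem z2 (x : ZMod 2) : x * (1 + x) = 0 := by
  revert x; decide

/-- the sum over the class of `p` -/
theorem row_in {o : Bool} {u b w : ℕ} (h : Gd u b w) {p : ℕ}
    (hp : p ∈ (u * b * w).primeFactors) :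
    ∑ q ∈ (u * b * w).primeFactors.filter (fun q => clf u b q = clf u b p),
      en o (clf u b) (tf u b w) p q = en o (clf u b) (tf u b w) p p := by
  obtain ⟨hpp, hp2, -⟩ := cls h hp
  obtain ⟨hs, h4⟩ := cn_sq h (clf u b p)
  have hpm : p ∈ (u * b * w).primeFactors.filter (fun q => clf u b q = clf u b p) := by
    rw [Finset.mem_filter]; exact ⟨hp, rfl⟩
  have h1 : ∀ q ∈ (u * b * w).primeFactors.filter (fun q => clf u b q = clf u b p),
      en o (clf u b) (tf u b w) p q =
        (if clf u b p = 1 then lam p * lam q else 0) +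
        (if q = p then en o (clf u b) (tf u b w) p p +
          (if clf u b p = 1 then lam p * lam p else 0) else 0) := by
    intro q hq
    rw [Finset.mem_filter] at hq
    by_cases h2 : q = p
    · subst h2
      rw [if_pos rfl]
      by_cases h3 : clf u b q = 1
      · simp only [h3, if_true]
        rw [add_comm, add_assoc, CharTwo.add_self_eq_zero, add_zero]
      · simp only [h3, if_false, add_zero, zero_add]
    · rw [if_neg h2, add_zero]
      conv_lhs => unfold en
      rw [if_neg (Ne.symm h2), if_pos hq.2.symm]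
  rw [Finset.sum_congr rfl h1, Finset.sum_add_distrib, Finset.sum_ite_eq' _ p, if_pos hpm]
  by_cases h3 : clf u b p = 1
  · simp only [h3, if_true]
    rw [h3] at hs h4
    rw [← Finset.mul_sum, filter_clf h, sum_lam hs (by omega)]
    unfold l4
    rw [if_pos h4]
    have := z2 (lam p)
    rw [mul_add] at this
    rw [add_comm, add_assoc, add_comm (lam p * lam p), this, add_zero]
  · simp [h3]

theorem nd {p n : ℕ} (h : ¬ p ∣ n) : ¬ (p : ℤ) ∣ (n : ℤ) := by
  intro h1
  exact h (by exact_mod_cast h1)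

theorem nr_four {p : ℕ} (hp : p.Prime) (hp2 : p % 2 = 1) {a : ℤ} (ha : ¬ (p : ℤ) ∣ a) :
    nr p (4 * a) = nr p a := by
  have h2 : ¬ (p : ℤ) ∣ 2 := by
    intro h
    have h3 : p ∣ 2 := by exact_mod_cast h
    have h4 := Nat.le_of_dvd (by norm_num) h3
    have h5 := hp.two_le
    omega
  have h4 : ¬ (p : ℤ) ∣ 2 * 2 := by
    intro h
    rcases (Nat.prime_iff_prime_int.mp hp).dvd_or_dvd h with h | h <;> exact h2 h
  rw [show (4 : ℤ) * a = (2 * 2) * a by ring, nr_mul hp h4 ha, nr_sq hp h2, zero_add]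

theorem rows : S_ROWS := by
  intro o u b w h χ p hp
  by_cases hχ : clf u b p = χ
  · subst hχ
    exact row_in h hp
  · rw [row_off h hp hχ]
    obtain ⟨hpp, hp2, h3⟩ := cls h hp
    have hen : en o (clf u b) (tf u b w) p p = tf u b w p + (if o then lam p else 0) := by
      unfold en
      rw [if_pos rfl]
    rw [hen]
    have hb := h.hb
    rcases h3 with ⟨h4, h5, h6, h7⟩ | ⟨h4, h5, h6, h7⟩ | ⟨h4, h5, h6, h7⟩
    · have htf : tf u b w p = nr p b := by simp [tf, h5]
      have e1 : nr p (b : ℤ) = nr p (w : ℤ) := by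
        rw [← nr_four hpp hp2 (nd h7)]
        apply nr_congr
        rw [hb]
        push_cast
        have : (p : ℤ) ∣ (u : ℤ) := by exact_mod_cast h5
        simpa using this
      rw [htf, h4]
      rw [h4] at hχ
      fin_cases χ
      · exact absurd rfl hχ
      · cases o <;> simp [cn]
      · cases o <;> simp [cn, e1]
    · have htf : tf u b w p = nr p w := by simp [tf, h5, h6]
      have e1 : lam p + nr p (u : ℤ) = nr p (w : ℤ) := by
        rw [← nr_four hpp hp2 (nd h7), ← nr_neg hpp (nd h5)]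
        apply nr_congr
        have : (p : ℤ) ∣ (b : ℤ) := by exact_mod_cast h6
        rw [show (-(u : ℤ) - 4 * (w : ℤ)) = -(b : ℤ) by rw [hb]; push_cast; ring]
        exact (dvd_neg).mpr this
      have e2 : nr p (u : ℤ) = nr p (w : ℤ) + lam p := by
        rw [← e1, add_comm (lam p), add_assoc, CharTwo.add_self_eq_zero, add_zero]
      rw [htf, h4]
      rw [h4] at hχ
      fin_cases χ
      · cases o
        · simp [cn, e2, add_assoc, CharTwo.add_self_eq_zero]
        · simp [cn, e2]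
      · exact absurd rfl hχ
      · cases o <;> simp [cn]
    · have htf : tf u b w p = nr p (-(b : ℤ)) := by simp [tf, h5, h6]
      rw [nr_neg hpp (nd h6)] at htf
      have e1 : nr p (u : ℤ) = nr p (b : ℤ) := by
        apply nr_congr
        have : (p : ℤ) ∣ (w : ℤ) := by exact_mod_cast h7
        rw [show ((u : ℤ) - (b : ℤ)) = -4 * (w : ℤ) by rw [hb]; push_cast; ring]
        exact Dvd.dvd.mul_left this _
      rw [htf, h4]
      rw [h4] at hχ
      fin_cases χ
      · cases o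
        · simp [cn, e1, add_comm]
        · simp [cn, e1]
          rw [add_comm (lam p), add_assoc, CharTwo.add_self_eq_zero, add_zero]
      · cases o
        · simp [cn, add_comm]
        · simp [cn]
          rw [add_comm (lam p), add_assoc, CharTwo.add_self_eq_zero, add_zero]
      · exact absurd rfl hχ

end Pool.Agent.L0h53.RZ
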