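import Mathlib
import Pool.Agent.L0h94.RZ.Defs
import Pool.Agent.L0h53.RZ.Rows

set_option autoImplicit false

/-! Part (3) of project RZ: the vector of a pair of square classes is in the kernel and determines
the square classes. -/

namespace Pool.Agent.L0h53.RZ

open Finset Pool.Agent.L0h94.RZ

/-- the class of the primes which divide `m` -/
def cM (o : Bool) : Fin 3 := if o then 0 else 2

/-- the class of the primes which divide `b - m` -/
def cN (o : Bool) : Fin 3 := if o then 2 else 0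

theorem not_two {p : ℕ} (hp2 : p % 2 = 1) : p ≠ 2 := by
  rintro rfl
  omega

theorem nd4 {p : ℕ} (hp : p.Prime) (hp2 : p % 2 = 1) : ¬ (p : ℤ) ∣ 4 := by
  intro h
  have h1 : p ∣ 2 * 2 := by exact_mod_cast h
  rcases hp.dvd_mul.mp h1 with h2 | h2 <;>
  · have h4 := Nat.le_of_dvd (by norm_num) h2
    have h5 := hp.two_le
    omega

theorem dvd_four {p : ℕ} (hp : p.Prime) (hp2 : p % 2 = 1) {n : ℕ} :
    (p : ℤ) ∣ 4 * (n : ℤ) ↔ p ∣ n := by
  constructor
  · intro h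
    rcases (Nat.prime_iff_prime_int.mp hp).dvd_or_dvd h with h1 | h1
    · exact absurd h1 (nd4 hp hp2)
    · exact_mod_cast h1
  · intro h
    have : (p : ℤ) ∣ (n : ℤ) := by exact_mod_cast h
    exact this.mul_left _

/-- the class of `p` and the divisors -/
theorem dvd_m {u b w : ℕ} (h : Gd u b w) (o : Bool) {p : ℕ}
    (hp : p ∈ (u * b * w).primeFactors) :
    ((p : ℤ) ∣ mo o u w ↔ clf u b p = cM o) ∧ (p ∣ b ↔ clf u b p = 1) ∧
      ((p : ℤ) ∣ (b : ℤ) - mo o u w ↔ clf u b p = cN o) := by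
  obtain ⟨hpp, hp2, -⟩ := cls h hp
  have h0 := cn_dvd h hp 0
  have h1 := cn_dvd h hp 1
  have h2 := cn_dvd h hp 2
  simp only [cn, Matrix.cons_val] at h0 h1 h2
  refine ⟨?_, h1, ?_⟩
  · cases o
    · simp only [mo, cM, Bool.false_eq_true, if_false]
      rw [dvd_four hpp hp2]; exact h2
    · simp only [mo, cM, if_true]
      rw [← h0]
      exact_mod_cast Iff.rfl
  · cases o
    · simp only [mo, cN, Bool.false_eq_true, if_false]
      rw [← h0, show (b : ℤ) - 4 * (w : ℤ) = u by rw [h.hb]; push_cast; ring]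
      exact_mod_cast Iff.rfl
    · simp only [mo, cN, if_true]
      rw [show (b : ℤ) - (u : ℤ) = 4 * (w : ℤ) by rw [h.hb]; push_cast; ring,
        dvd_four hpp hp2]; exact h2

theorem pM {A B C N1 N2 N3 : Prop} (a1 : ¬ C) (a2 : A ↔ B) (n1 : N1) (n2 : N2) (n3 : ¬ N3) :
    (A ↔ N1 ∧ (A ∨ B)) ∧ (B ↔ N2 ∧ (A ∨ B)) ∧ (C ↔ N3 ∧ (A ∨ B)) := by tauto

theorem p1 {A B C N1 N2 N3 : Prop} (a1 : ¬ B) (a2 : A ↔ C) (n1 : N1) (n2 : ¬ N2) (n3 : N3) :
    (A ↔ N1 ∧ (A ∨ B)) ∧ (B ↔ N2 ∧ (A ∨ B)) ∧ (C ↔ N3 ∧ (A ∨ B)) := by tauto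

theorem pN {A B C N1 N2 N3 : Prop} (a1 : ¬ A) (a2 : B ↔ C) (n1 : ¬ N1) (n2 : N2) (n3 : N3) :
    (A ↔ N1 ∧ (A ∨ B)) ∧ (B ↔ N2 ∧ (A ∨ B)) ∧ (C ↔ N3 ∧ (A ∨ B)) := by tauto

/-- which primes divide the `e_i` -/
theorem supp {u b w : ℕ} (h : Gd u b w) {o : Bool} {e1 e2 e3 : ℤ} (hl : LA o u b w e1 e2 e3) :
    (∀ q : ℕ, q.Prime → ((q : ℤ) ∣ e1 ↔ q ∈ (u * b * w).primeFactors ∧ clf u b q ≠ cN o ∧
      vec u b w e1 e2 q = 1)) ∧
    (∀ q : ℕ, q.Prime → ((q : ℤ) ∣ e2 ↔ q ∈ (u * b * w).primeFactors ∧ clf u b q ≠ 1 ∧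
      vec u b w e1 e2 q = 1)) ∧
    (∀ q : ℕ, q.Prime → ((q : ℤ) ∣ e3 ↔ q ∈ (u * b * w).primeFactors ∧ clf u b q ≠ cM o ∧
      vec u b w e1 e2 q = 1)) := by
  obtain ⟨-, -, -, -, -, o1, o2, o3, -, l0, l1, l2, l3⟩ := hl
  have hodd : ∀ {q : ℕ} {e : ℤ}, q.Prime → Odd e → (q : ℤ) ∣ e → q ≠ 2 := by
    rintro q e hq ho hd rfl
    have h1 : Even e := (even_iff_two_dvd).mpr (by exact_mod_cast hd)
    exact (Int.not_even_iff_odd.mpr ho) h1
  have h0 := (gd_sq h).2.2.2.2.2.2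
  have hv : ∀ q : ℕ, vec u b w e1 e2 q = 1 ↔ q ∈ (u * b * w).primeFactors ∧
      ((q : ℤ) ∣ e1 ∨ (q : ℤ) ∣ e2) := by
    intro q
    unfold vec
    split_ifs with hc
    · exact ⟨fun _ => hc, fun _ => rfl⟩
    · exact ⟨fun h1 => absurd h1 (by decide), fun h1 => absurd h1 hc⟩
  have hcls : ∀ q ∈ (u * b * w).primeFactors, clf u b q = cM o ∨ clf u b q = 1 ∨
      clf u b q = cN o := by
    intro q hq
    obtain ⟨-, -, h3⟩ := cls h hq
    cases o <;> simp only [cM, cN, Bool.false_eq_true, if_false, if_true] <;> tauto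
  have hne : cM o ≠ 1 ∧ cM o ≠ cN o ∧ (1 : Fin 3) ≠ cN o := by
    cases o <;> decide
  have key : ∀ q ∈ (u * b * w).primeFactors,
      ((q : ℤ) ∣ e1 ↔ clf u b q ≠ cN o ∧ ((q : ℤ) ∣ e1 ∨ (q : ℤ) ∣ e2)) ∧
      ((q : ℤ) ∣ e2 ↔ clf u b q ≠ 1 ∧ ((q : ℤ) ∣ e1 ∨ (q : ℤ) ∣ e2)) ∧
      ((q : ℤ) ∣ e3 ↔ clf u b q ≠ cM o ∧ ((q : ℤ) ∣ e1 ∨ (q : ℤ) ∣ e2)) := by
    intro q hq
    obtain ⟨hqp, hq2, -⟩ := cls h hq
    obtain ⟨d1, d2, d3⟩ := dvd_m h o hq
    rcases hcls q hq with hc | hc | hc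
    · obtain ⟨a1, a2, -⟩ := l1 q hqp (not_two hq2) (d1.mpr hc)
      have n1 : clf u b q ≠ cN o := by rw [hc]; exact hne.2.1
      have n2 : clf u b q ≠ 1 := by rw [hc]; exact hne.1
      exact pM a1 a2 n1 n2 (fun hh => hh hc)
    · obtain ⟨a1, a2, -⟩ := l2 q hqp (not_two hq2) (d2.mpr hc)
      have n1 : clf u b q ≠ cN o := by rw [hc]; exact hne.2.2
      have n2 : clf u b q ≠ cM o := by rw [hc]; exact hne.1.symm
      exact p1 a1 a2 n1 (fun hh => hh hc) n2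
    · obtain ⟨a1, a2, -⟩ := l3 q hqp (not_two hq2) (d3.mpr hc)
      have n1 : clf u b q ≠ cM o := by rw [hc]; exact hne.2.1.symm
      have n2 : clf u b q ≠ 1 := by rw [hc]; exact hne.2.2.symm
      exact pN a1 a2 (fun hh => hh hc) n2 n1
  have hin : ∀ {q : ℕ} {e : ℤ}, (e = e1 ∨ e = e2 ∨ e = e3) → q.Prime → (q : ℤ) ∣ e →
      q ∈ (u * b * w).primeFactors := by
    intro q e he hq hd
    have hq2 : q ≠ 2 := by
      rcases he with he | he | he <;> subst he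
      · exact hodd hq o1 hd
      · exact hodd hq o2 hd
      · exact hodd hq o3 hd
    by_contra hc
    have hnd : ¬ q ∣ u * b * w := fun h1 => hc (Nat.mem_primeFactors.mpr ⟨hq, h1, h0⟩)
    obtain ⟨a1, a2, a3⟩ := l0 q hq hq2 hnd
    rcases he with he | he | he <;> subst he
    · exact a1 hd
    · exact a2 hd
    · exact a3 hd
  refine ⟨fun q hq => ⟨fun hd => ?_, ?_⟩, fun q hq => ⟨fun hd => ?_, ?_⟩,
    fun q hq => ⟨fun hd => ?_, ?_⟩⟩
  · have hm := hin (Or.inl rfl) hq hd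
    have h1 := (key q hm).1.mp hd
    exact ⟨hm, h1.1, (hv q).mpr ⟨hm, h1.2⟩⟩
  · rintro ⟨hm, hc, h1⟩
    exact (key q hm).1.mpr ⟨hc, ((hv q).mp h1).2⟩
  · have hm := hin (Or.inr (Or.inl rfl)) hq hd
    have h1 := (key q hm).2.1.mp hd
    exact ⟨hm, h1.1, (hv q).mpr ⟨hm, h1.2⟩⟩
  · rintro ⟨hm, hc, h1⟩
    exact (key q hm).2.1.mpr ⟨hc, ((hv q).mp h1).2⟩
  · have hm := hin (Or.inr (Or.inr rfl)) hq hd
    have h1 := (key q hm).2.2.mp hd
    exact ⟨hm, h1.1, (hv q).mpr ⟨hm, h1.2⟩⟩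
  · rintro ⟨hm, hc, h1⟩
    exact (key q hm).2.2.mpr ⟨hc, ((hv q).mp h1).2⟩

/-- the symbols of `v` -/
theorem vec_val {u b w : ℕ} {e1 e2 : ℤ} {p : ℕ} (hp : p ∈ (u * b * w).primeFactors) :
    (((p : ℤ) ∣ e1 ∨ (p : ℤ) ∣ e2) → vec u b w e1 e2 p = 1) ∧
    (¬ ((p : ℤ) ∣ e1 ∨ (p : ℤ) ∣ e2) → vec u b w e1 e2 p = 0) := by
  constructor
  · intro h
    unfold vec
    rw [if_pos ⟨hp, h⟩]
  · intro h
    unfold vec
    rw [if_neg]
    rintro ⟨-, h1⟩
    exact h h1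

section expand

variable {S : Finset ℕ} {cl : ℕ → Fin 3} {c : Fin 3} {v : ℕ → ZMod 2} {e : ℤ}

theorem pf_eq (he0 : e ≠ 0) (hS : ∀ q : ℕ, q.Prime → ((q : ℤ) ∣ e ↔ q ∈ S ∧ cl q ≠ c ∧ v q = 1))
    (hP : ∀ q ∈ S, q.Prime) :
    e.natAbs.primeFactors = S.filter (fun q => cl q ≠ c ∧ v q = 1) := by
  ext q
  rw [Nat.mem_primeFactors, Finset.mem_filter]
  constructor
  · rintro ⟨hq, hd, -⟩
    exact (hS q hq).mp (Int.natCast_dvd.mpr hd)
  · rintro ⟨h1, h2⟩
    exact ⟨hP q h1, Int.natCast_dvd.mp ((hS q (hP q h1)).mpr ⟨h1, h2⟩), by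
      rwa [Ne, Int.natAbs_eq_zero]⟩

theorem sum_filter_v (f : ℕ → ZMod 2) :
    ∑ q ∈ S.filter (fun q => cl q ≠ c ∧ v q = 1), f q =
      ∑ q ∈ S, (if cl q ≠ c then f q else 0) * v q := by
  rw [Finset.sum_filter]
  refine Finset.sum_congr rfl fun q _ => ?_
  have h01 : ∀ x : ZMod 2, x = 0 ∨ x = 1 := by decide
  rcases h01 (v q) with h | h
  · simp [h]
  · by_cases h1 : cl q = c <;> simp [h, h1]

theorem expand (hsq : Squarefree e)
    (hS : ∀ q : ℕ, q.Prime → ((q : ℤ) ∣ e ↔ q ∈ S ∧ cl q ≠ c ∧ v q = 1))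
    (hP : ∀ q ∈ S, q.Prime) {p : ℕ} (hp : p.Prime) (hd : ¬ (p : ℤ) ∣ e) :
    nr p e = (if e < 0 then 1 else 0) * lam p +
      ∑ q ∈ S, (if cl q ≠ c then nr p q else 0) * v q := by
  have hsq' : Squarefree e.natAbs := Int.squarefree_natAbs.mpr hsq
  have hd' : ¬ p ∣ e.natAbs := fun h => hd (Int.natCast_dvd.mpr h)
  have h1 := sum_nr hsq' hp hd'
  rw [pf_eq hsq.ne_zero hS hP, sum_filter_v] at h1
  rw [h1]
  by_cases hn : e < 0
  · have h2 : e = -(e.natAbs : ℤ) := by omega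
    have h3 : ¬ (p : ℤ) ∣ (e.natAbs : ℤ) := nd hd'
    rw [if_pos hn, one_mul]
    conv_lhs => rw [h2]
    exact nr_neg hp h3
  · have h2 : e = (e.natAbs : ℤ) := by omega
    rw [if_neg hn, zero_mul, zero_add]
    conv_lhs => rw [h2]

theorem mod4 (hsq : Squarefree e) (h4 : e % 4 = 1)
    (hS : ∀ q : ℕ, q.Prime → ((q : ℤ) ∣ e ↔ q ∈ S ∧ cl q ≠ c ∧ v q = 1))
    (hP : ∀ q ∈ S, q.Prime) :
    (if e < 0 then (1 : ZMod 2) else 0) = ∑ q ∈ S, (if cl q ≠ c then lam q else 0) * v q := by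
  have hsq' : Squarefree e.natAbs := Int.squarefree_natAbs.mpr hsq
  have h1 := sum_lam hsq' (by omega)
  rw [pf_eq hsq.ne_zero hS hP, sum_filter_v] at h1
  rw [h1]
  unfold l4
  by_cases hn : e < 0
  · rw [if_pos hn, if_pos (by omega)]
  · rw [if_neg hn, if_neg (by omega)]

theorem row_lemma {en' : ℕ → ZMod 2} {g : ℕ → ZMod 2} {d : ZMod 2} {p : ℕ} (hp : p ∈ S)
    (h1 : en' p = g p + d) (h2 : ∀ q ∈ S, q ≠ p → en' q = g q) :
    ∑ q ∈ S, en' q * v q = ∑ q ∈ S, g q * v q + d * v p := by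
  have h3 : ∀ q ∈ S, en' q * v q = g q * v q + (if q = p then d * v p else 0) := by
    intro q hq
    by_cases h : q = p
    · subst h
      rw [if_pos rfl, h1]; ring
    · rw [if_neg h, h2 q hq h, add_zero]
  rw [Finset.sum_congr rfl h3, Finset.sum_add_distrib, Finset.sum_ite_eq' S p, if_pos hp]

end expand

theorem cc (x y : ZMod 2) : x + y + x = y := by
  revert x y; decide

theorem nr_m {u b w : ℕ} (h : Gd u b w) (o : Bool) {p : ℕ}
    (hp : p ∈ (u * b * w).primeFactors) (hc : clf u b p = cN o) :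
    nr p (mo o u w) = nr p b := by
  obtain ⟨-, -, d3⟩ := dvd_m h o hp
  have := d3.mpr hc
  exact (nr_congr this).symm

/-- the entries of a row of type N -/
theorem en_N {u b w : ℕ} (h : Gd u b w) (o : Bool) {p : ℕ}
    (hp : p ∈ (u * b * w).primeFactors) (hc : clf u b p = cN o) :
    en o (clf u b) (tf u b w) p p = nr p (mo o u w) ∧
    ∀ q ∈ (u * b * w).primeFactors, q ≠ p → en o (clf u b) (tf u b w) p q =
      if clf u b q ≠ cN o then nr p q else 0 := by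
  have hnm := nr_m h o hp hc
  obtain ⟨hpp, hp2, hcl⟩ := cls h hp
  constructor
  · unfold en
    rw [if_pos rfl, hnm]
    cases o
    · simp only [cN, Bool.false_eq_true, if_false] at hc ⊢
      rcases hcl with ⟨h4, h5, h6, h7⟩ | ⟨h4, h5, h6, h7⟩ | ⟨h4, h5, h6, h7⟩
      · simp [tf, h5]
      · rw [h4] at hc; exact absurd hc (by decide)
      · rw [h4] at hc; exact absurd hc (by decide)
    · simp only [cN, if_true] at hc ⊢
      rcases hcl with ⟨h4, h5, h6, h7⟩ | ⟨h4, h5, h6, h7⟩ | ⟨h4, h5, h6, h7⟩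
      · rw [h4] at hc; exact absurd hc (by decide)
      · rw [h4] at hc; exact absurd hc (by decide)
      · simp only [tf, h5, h6, if_false]
        rw [nr_neg hpp (nd h6)]
        exact cc _ _
  · intro q hq hqp
    unfold en
    rw [if_neg (Ne.symm hqp), hc]
    obtain ⟨-, -, hcq⟩ := cls h hq
    cases o <;> simp only [cN, Bool.false_eq_true, if_false, if_true] <;>
    rcases hcq with ⟨h4, -⟩ | ⟨h4, -⟩ | ⟨h4, -⟩ <;> rw [h4] <;> simp

theorem rec' {u b w : ℕ} (h : Gd u b w) {p q : ℕ} (hp : p ∈ (u * b * w).primeFactors)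
    (hq : q ∈ (u * b * w).primeFactors) (hqp : q ≠ p) : nr q p = nr p q + lam p * lam q := by
  obtain ⟨hpp, hp2, -⟩ := cls h hp
  obtain ⟨hqp', hq2, -⟩ := cls h hq
  have h2 := recip hpp hqp' hp2 hq2 (Ne.symm hqp)
  rw [← h2, ← add_assoc, CharTwo.add_self_eq_zero, zero_add]

/-- the entries of a row of type M -/
theorem en_M {u b w : ℕ} (h : Gd u b w) (o : Bool) {p : ℕ}
    (hp : p ∈ (u * b * w).primeFactors) (hc : clf u b p = cM o) :
    en o (clf u b) (tf u b w) p p = nr p (-(b : ℤ)) ∧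
    ∀ q ∈ (u * b * w).primeFactors, q ≠ p → en o (clf u b) (tf u b w) p q =
      if clf u b q ≠ cM o then nr p q + lam p * lam q else 0 := by
  obtain ⟨hpp, hp2, hcl⟩ := cls h hp
  constructor
  · unfold en
    rw [if_pos rfl]
    cases o
    · simp only [cM, Bool.false_eq_true, if_false] at hc ⊢
      rcases hcl with ⟨h4, h5, h6, h7⟩ | ⟨h4, h5, h6, h7⟩ | ⟨h4, h5, h6, h7⟩
      · rw [h4] at hc; exact absurd hc (by decide)
      · rw [h4] at hc; exact absurd hc (by decide)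
      · simp [tf, h5, h6]
    · simp only [cM, if_true] at hc ⊢
      rcases hcl with ⟨h4, h5, h6, h7⟩ | ⟨h4, h5, h6, h7⟩ | ⟨h4, h5, h6, h7⟩
      · simp only [tf, h5, if_true]
        rw [nr_neg hpp (nd h6), add_comm]
      · rw [h4] at hc; exact absurd hc (by decide)
      · rw [h4] at hc; exact absurd hc (by decide)
  · intro q hq hqp
    have hr := rec' h hp hq hqp
    rw [← hr]
    unfold en
    rw [if_neg (Ne.symm hqp), hc]
    obtain ⟨-, -, hcq⟩ := cls h hq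
    cases o <;> simp only [cM, Bool.false_eq_true, if_false, if_true] <;>
    rcases hcq with ⟨h4, -⟩ | ⟨h4, -⟩ | ⟨h4, -⟩ <;> rw [h4] <;> simp

/-- the entries of a row of class 1 -/
theorem en_1 {u b w : ℕ} (h : Gd u b w) (o : Bool) {p : ℕ}
    (hp : p ∈ (u * b * w).primeFactors) (hc : clf u b p = 1) :
    en o (clf u b) (tf u b w) p p = nr p (-(mo o u w)) + lam p ∧
    ∀ q ∈ (u * b * w).primeFactors, q ≠ p → en o (clf u b) (tf u b w) p q =
      (if clf u b q ≠ 1 then nr p q else 0) + (if clf u b q ≠ cM o then lam p * lam q else 0) := by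
  obtain ⟨hpp, hp2, hcl⟩ := cls h hp
  constructor
  · unfold en
    rw [if_pos rfl]
    rcases hcl with ⟨h4, h5, h6, h7⟩ | ⟨h4, h5, h6, h7⟩ | ⟨h4, h5, h6, h7⟩
    · rw [h4] at hc; exact absurd hc (by decide)
    · have h8 : ¬ (p : ℤ) ∣ 4 * (w : ℤ) := by
        rw [dvd_four hpp hp2]; exact h7
      cases o
      · simp only [tf, h5, h6, mo, Bool.false_eq_true, if_false, if_true]
        rw [nr_neg hpp h8, nr_four hpp hp2 (nd h7), add_zero]
        exact (cc _ _).symm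
      · simp only [tf, h5, h6, mo, if_false, if_true]
        have h9 : nr p (-(u : ℤ)) = nr p (w : ℤ) := by
          rw [← nr_four hpp hp2 (nd h7)]
          apply nr_congr
          have : (p : ℤ) ∣ (b : ℤ) := by exact_mod_cast h6
          rw [show (-(u : ℤ) - 4 * (w : ℤ)) = -(b : ℤ) by rw [h.hb]; push_cast; ring]
          exact (dvd_neg).mpr this
        rw [h9]
    · rw [h4] at hc; exact absurd hc (by decide)
  · intro q hq hqp
    have hr := rec' h hp hq hqp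
    unfold en
    rw [if_neg (Ne.symm hqp), hc, hr]
    obtain ⟨-, -, hcq⟩ := cls h hq
    cases o <;> simp only [cM, Bool.false_eq_true, if_false, if_true] <;>
    rcases hcq with ⟨h4, -⟩ | ⟨h4, -⟩ | ⟨h4, -⟩ <;> rw [h4] <;> simp

theorem add2 {x y : ZMod 2} (h : x = y) : x + y = 0 := by
  rw [h]; exact CharTwo.add_self_eq_zero _

theorem lam_sq (x : ZMod 2) : x * x = x := by
  revert x; decide

/-- the vector is in the kernel -/
theorem ker1 {o : Bool} {u b w : ℕ} (h : Gd u b w) {e1 e2 e3 : ℤ}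
    (hl : LA o u b w e1 e2 e3) :
    vec u b w e1 e2 ∈ KerE (u * b * w).primeFactors (en o (clf u b) (tf u b w)) := by
  obtain ⟨t1, t2, t3⟩ := supp h hl
  obtain ⟨q1, q2, q3, p1, p23, o1, o2, o3, m4, l0, l1, l2, l3⟩ := hl
  have hP : ∀ q ∈ (u * b * w).primeFactors, q.Prime := fun q hq =>
    Nat.prime_of_mem_primeFactors hq
  have hm4 := mod4 q3 m4 t3 hP
  have hneg : (e2 < 0) ↔ (e3 < 0) := by
    constructor
    · intro h1
      rcases mul_pos_iff.mp p23 with h2 | h2 <;> omega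
    · intro h1
      rcases mul_pos_iff.mp p23 with h2 | h2 <;> omega
  refine ⟨fun p hp => ?_, fun p hp => ?_⟩
  · unfold vec
    rw [if_neg]
    rintro ⟨h1, -⟩
    exact hp h1
  obtain ⟨hpp, hp2, hcl⟩ := cls h hp
  obtain ⟨d1, d2, d3⟩ := dvd_m h o hp
  obtain ⟨v1, v0⟩ := vec_val (e1 := e1) (e2 := e2) hp
  have hcls : clf u b p = cM o ∨ clf u b p = 1 ∨ clf u b p = cN o := by
    cases o <;> simp only [cM, cN, Bool.false_eq_true, if_false, if_true] <;> tauto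
  rcases hcls with hc | hc | hc
  · -- type M
    obtain ⟨a1, a2, a3⟩ := l1 p hpp (not_two hp2) (d1.mpr hc)
    obtain ⟨b1, b2⟩ := en_M h o hp hc
    have hex := expand q3 t3 hP hpp a1
    have hval : nr p e3 = nr p (-(b : ℤ)) * vec u b w e1 e2 p := by
      rw [a3]
      by_cases hx : (p : ℤ) ∣ e1
      · rw [if_pos hx, v1 (Or.inl hx), mul_one]
      · rw [if_neg hx, v0 (fun hh => hh.elim hx (fun h9 => hx (a2.mpr h9))), mul_zero]
    rw [row_lemma (g := fun q => if clf u b q ≠ cM o then nr p q + lam p * lam q else 0)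
      (d := nr p (-(b : ℤ))) hp
      (by rw [b1]; simp [hc]) b2]
    apply add2
    rw [← hval, hex, hm4, Finset.sum_mul, ← Finset.sum_add_distrib]
    refine Finset.sum_congr rfl fun q _ => ?_
    by_cases hq : clf u b q = cM o
    · simp [hq]
    · simp only [ne_eq, hq, not_false_eq_true, if_true]; ring
  · -- class 1
    obtain ⟨a1, a2, a3⟩ := l2 p hpp (not_two hp2) (d2.mpr hc)
    obtain ⟨b1, b2⟩ := en_1 h o hp hc
    have hex := expand q2 t2 hP hpp a1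
    have hne : cM o ≠ 1 := by cases o <;> decide
    have hval : nr p e2 = nr p (-(mo o u w)) * vec u b w e1 e2 p := by
      rw [a3]
      by_cases hx : (p : ℤ) ∣ e1
      · rw [if_pos hx, v1 (Or.inl hx), mul_one]
      · rw [if_neg hx, v0 (fun hh => hh.elim hx a1), mul_zero]
    rw [row_lemma (g := fun q => (if clf u b q ≠ 1 then nr p q else 0) +
      (if clf u b q ≠ cM o then lam p * lam q else 0)) (d := nr p (-(mo o u w))) hp
      (by rw [b1, hc]; simp [hne.symm, lam_sq, add_comm]) b2]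
    apply add2
    have hneg' : (if e2 < 0 then (1 : ZMod 2) else 0) = if e3 < 0 then 1 else 0 := by
      simp only [hneg]
    rw [← hval, hex, hneg', hm4, Finset.sum_mul, ← Finset.sum_add_distrib]
    refine Finset.sum_congr rfl fun q _ => ?_
    by_cases hq : clf u b q = cM o
    · simp [hq]
    · simp only [ne_eq, hq, not_false_eq_true, if_true]; ring
  · -- type N
    obtain ⟨a1, a2, a3⟩ := l3 p hpp (not_two hp2) (d3.mpr hc)
    obtain ⟨b1, b2⟩ := en_N h o hp hc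
    have hex := expand q1 t1 hP hpp a1
    have hval : nr p e1 = nr p (mo o u w) * vec u b w e1 e2 p := by
      rw [a3]
      by_cases hx : (p : ℤ) ∣ e2
      · rw [if_pos hx, v1 (Or.inr hx), mul_one]
      · rw [if_neg hx, v0 (fun hh => hh.elim a1 hx), mul_zero]
    rw [row_lemma (g := fun q => if clf u b q ≠ cN o then nr p q else 0)
      (d := nr p (mo o u w)) hp
      (by rw [b1]; simp [hc]) b2]
    apply add2
    rw [← hval, hex, if_neg (by omega), zero_mul, zero_add]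

/-- squarefree integers with the same prime divisors -/
theorem natAbs_eq_of {a b : ℤ} (ha : Squarefree a) (hb : Squarefree b)
    (h : ∀ q : ℕ, q.Prime → ((q : ℤ) ∣ a ↔ (q : ℤ) ∣ b)) : a.natAbs = b.natAbs := by
  have h1 : a.natAbs.primeFactors = b.natAbs.primeFactors := by
    ext q
    rw [Nat.mem_primeFactors, Nat.mem_primeFactors]
    have ha0 : a.natAbs ≠ 0 := by rw [Ne, Int.natAbs_eq_zero]; exact ha.ne_zero
    have hb0 : b.natAbs ≠ 0 := by rw [Ne, Int.natAbs_eq_zero]; exact hb.ne_zero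
    constructor
    · rintro ⟨hq, hd, -⟩
      exact ⟨hq, Int.natCast_dvd.mp ((h q hq).mp (Int.natCast_dvd.mpr hd)), hb0⟩
    · rintro ⟨hq, hd, -⟩
      exact ⟨hq, Int.natCast_dvd.mp ((h q hq).mpr (Int.natCast_dvd.mpr hd)), ha0⟩
  rw [← Nat.prod_primeFactors_of_squarefree (Int.squarefree_natAbs.mpr ha),
    ← Nat.prod_primeFactors_of_squarefree (Int.squarefree_natAbs.mpr hb), h1]

theorem ker : S_KER := by
  intro o u b w h
  refine ⟨fun e1 e2 e3 hl => ker1 h hl, ?_⟩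
  intro e1 e2 e3 e1' e2' e3' hl hl' hv
  obtain ⟨t1, t2, t3⟩ := supp h hl
  obtain ⟨t1', t2', t3'⟩ := supp h hl'
  obtain ⟨q1, q2, q3, p1, p23, o1, o2, o3, m4, -⟩ := hl
  obtain ⟨q1', q2', q3', p1', p23', o1', o2', o3', m4', -⟩ := hl'
  have n1 : e1.natAbs = e1'.natAbs := natAbs_eq_of q1 q1' fun q hq => by
    rw [t1 q hq, t1' q hq, hv]
  have n2 : e2.natAbs = e2'.natAbs := natAbs_eq_of q2 q2' fun q hq => by
    rw [t2 q hq, t2' q hq, hv]
  have n3 : e3.natAbs = e3'.natAbs := natAbs_eq_of q3 q3' fun q hq => by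
    rw [t3 q hq, t3' q hq, hv]
  have h1 : e1 = e1' := by omega
  have h3 : e3 = e3' := by omega
  refine ⟨h1, ?_, h3⟩
  subst h3
  rcases Int.natAbs_eq_natAbs_iff.mp n2 with h2 | h2
  · exact h2
  · exfalso
    rcases mul_pos_iff.mp p23 with h4 | h4 <;> rcases mul_pos_iff.mp p23' with h5 | h5 <;> omega

end Pool.Agent.L0h53.RZ
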